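import Mathlib
import Pool.Agent.V11254.MTLComp

/-!
# Uncountably many axiomatic extensions of MTL with deductive interpolation
-/

set_option autoImplicit false
set_option linter.unusedVariables false

namespace Pool.Agent.Results.MP_6be952_lc.UncountablyManyDIP

open Pool.Agent.V11254.FLewEl (FLew Fml eval imp_eq_one le_one' eval_subst eval_congr)
open Pool.Agent.V11254.MTLEl

/-! ### Definitions -/

/-- The consequence relation of `MTL`: truth preservation in all MTL-algebras. -/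
def Cons (Γ : Set Fml) (φ : Fml) : Prop :=
  ∀ (A : Type) (_ : MTL A) (v : ℕ → A), (∀ ψ ∈ Γ, eval v ψ = 1) → eval v φ = 1

/-- `L` is an axiomatic extension of `MTL`: it is obtained by adding a set of axioms closed
under substitution. -/
def IsAxExt (L : Set Fml → Fml → Prop) : Prop :=
  ∃ Ax : Set Fml, (∀ σ : ℕ → Fml, ∀ φ ∈ Ax, φ.subst σ ∈ Ax) ∧
    ∀ (Γ : Set Fml) (φ : Fml), L Γ φ ↔ Cons (Ax ∪ Γ) φ

/-- the variables of a set of formulas -/
def Vars (Γ : Set Fml) : Set ℕ := {n | ∃ γ ∈ Γ, n ∈ γ.vars}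

/-- The deductive interpolation property. -/
def DIP (L : Set Fml → Fml → Prop) : Prop :=
  ∀ (Γ : Set Fml) (φ : Fml), L Γ φ → ∃ P : Set Fml, Vars P ⊆ Vars Γ ∩ φ.vars ∧
    (∀ π ∈ P, L Γ π) ∧ L P φ

/-! ### Conjunctions and negated powers -/

section Basic

/-- conjunction of a list -/
def conj : List Fml → Fml
  | [] => .e
  | φ :: l => .and φ (conj l)

theorem eval_conj {A : Type} [FLew A] (v : ℕ → A) (l : List Fml) :
    eval v (conj l) = 1 ↔ ∀ φ ∈ l, eval v φ = 1 := by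
  induction l with
  | nil => exact ⟨fun _ φ h => absurd h List.not_mem_nil, fun _ => rfl⟩
  | cons φ l ih =>
    show eval v φ ⊓ eval v (conj l) = 1 ↔ _
    rw [El.inf_eq_one, ih, List.forall_mem_cons]

theorem vars_conj (l : List Fml) (Z : Set ℕ) (h : ∀ φ ∈ l, φ.vars ⊆ Z) : (conj l).vars ⊆ Z := by
  induction l with
  | nil => exact Set.empty_subset Z
  | cons φ l ih =>
    rw [List.forall_mem_cons] at h
    exact Set.union_subset h.1 (ih h.2)

theorem vars_pow5 (φ : Fml) : φ.pow5.vars = φ.vars := by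
  show φ.vars ∪ (φ.vars ∪ (φ.vars ∪ (φ.vars ∪ φ.vars))) = φ.vars
  simp

/-- `¬ φ ^ 5` -/
def np (φ : Fml) : Fml := φ.pow5.neg

theorem vars_np (φ : Fml) : (np φ).vars = φ.vars := by
  show φ.pow5.vars ∪ ∅ = φ.vars
  rw [Set.union_empty, vars_pow5]

theorem eval_np {C : Type} {d : Dc C} (u : ℕ → El d) (φ : Fml) :
    eval u (np φ) = 1 ↔ eval u φ ≠ 1 := by
  show FLew.imp (eval u φ.pow5) ⊥ = 1 ↔ _
  rw [imp_eq_one, le_bot_iff]
  constructor
  · intro h h1
    rw [El.eval_pow5_one u φ h1] at h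
    cases h
  · exact El.eval_pow5_ne u φ

end Basic

/-! ### The logics -/

/-- validity in the class given by `S` -/
def IsTh (S : Set ℕ) (φ : Fml) : Prop :=
  ∀ (C : Type) (d : Dc C), Good S d → ∀ u : ℕ → El d, eval u φ = 1

/-- the axiomatic extension given by `S` -/
def LS (S : Set ℕ) (Γ : Set Fml) (φ : Fml) : Prop := Cons ({ψ | IsTh S ψ} ∪ Γ) φ

theorem LS_ext (S : Set ℕ) : IsAxExt (LS S) :=
  ⟨{ψ | IsTh S ψ}, fun σ φ hφ C d hs u => by
    rw [eval_subst]; exact hφ C d hs _, fun Γ φ => Iff.rfl⟩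

/-- a non-satisfiable set has a non-satisfiable finite subset -/
theorem not_satis {S : Set ℕ} {Δ : Set Fml} (h : ¬ Satis S Δ) :
    ∃ F : Finset Fml, (∀ ζ ∈ F, ζ ∈ Δ) ∧ ∀ (C : Type) (d : Dc C) (u : ℕ → El d),
      Good S d → ∃ ζ ∈ F, eval u ζ ≠ 1 := by
  by_contra hc
  apply h
  refine compactness fun F hF => ?_
  by_contra hn
  apply hc
  refine ⟨F, hF, fun C d u hs => ?_⟩
  by_contra hz
  apply hn
  refine ⟨C, d, u, hs, fun ζ hζ => ?_⟩
  by_contra h1
  exact hz ⟨ζ, hζ, h1⟩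

theorem LS_iff (S : Set ℕ) (Γ : Set Fml) (φ : Fml) : LS S Γ φ ↔
    ∀ (C : Type) (d : Dc C), Good S d → ∀ u : ℕ → El d,
      (∀ γ ∈ Γ, eval u γ = 1) → eval u φ = 1 := by
  classical
  constructor
  · intro h C d hs u hu
    refine h (El d) inferInstance u ?_
    rintro ψ (hψ | hψ)
    · exact hψ C d hs u
    · exact hu ψ hψ
  · intro h
    have hn : ¬ Satis S (Γ ∪ {np φ}) := by
      rintro ⟨C, d, u, hs, hu⟩
      exact (eval_np u φ).1 (hu _ (Or.inr rfl)) (h C d hs u fun γ hγ => hu γ (Or.inl hγ))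
    obtain ⟨F, hF, hF'⟩ := not_satis hn
    let l : List Fml := (F.filter (· ∈ Γ)).toList
    have hl : ∀ ψ, ψ ∈ l ↔ ψ ∈ F ∧ ψ ∈ Γ := by
      intro ψ
      rw [Finset.mem_toList, Finset.mem_filter]
    have hθ : IsTh S ((conj l).pow5.imp φ) := by
      intro C d hs u
      show FLew.imp (eval u (conj l).pow5) (eval u φ) = 1
      rw [imp_eq_one]
      by_cases h1 : eval u (conj l) = 1
      · rw [El.eval_pow5_one u _ h1]
        refine ge_of_eq ?_
        by_contra h2
        obtain ⟨ζ, hζ, hζ'⟩ := hF' C d u hs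
        rcases hF ζ hζ with h3 | h3
        · exact hζ' ((eval_conj u l).1 h1 ζ ((hl ζ).2 ⟨hζ, h3⟩))
        · rw [show ζ = np φ from h3] at hζ'
          exact hζ' ((eval_np u φ).2 h2)
      · rw [El.eval_pow5_ne u _ h1]
        exact bot_le
    intro A _ v hv
    have h1 : eval v (conj l) = 1 := (eval_conj v l).2 fun ψ hψ => hv ψ (Or.inr ((hl ψ).1 hψ).2)
    have h2 : FLew.imp (eval v (conj l).pow5) (eval v φ) = 1 := hv _ (Or.inl hθ)
    have h3 : eval v (conj l).pow5 = 1 := by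
      show eval v (conj l) * (eval v (conj l) * (eval v (conj l) * (eval v (conj l) *
        eval v (conj l)))) = 1
      rw [h1]; simp
    rw [imp_eq_one, h3] at h2
    exact le_antisymm (le_one' _) h2

/-- a valuation satisfying `Γ` with a prescribed type over `Z` -/
theorem satis_over {S : Set ℕ} {Γ : Set Fml} {C : Type} {d : Dc C} (w : ℕ → El d) (Z : Set ℕ)
    (h : ∀ ζ : Fml, ζ.vars ⊆ Z → LS S Γ ζ → eval w ζ = 1) :
    ∃ (C' : Type) (d' : Dc C') (u : ℕ → El d'), Good S d' ∧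
      (∀ γ ∈ Γ, eval u γ = 1) ∧ ∀ ζ : Fml, ζ.vars ⊆ Z → (eval u ζ = 1 ↔ eval w ζ = 1) := by
  classical
  by_contra hc
  have hn : ¬ Satis S (Γ ∪ {ζ | ζ.vars ⊆ Z ∧ eval w ζ = 1}) := by
    rintro ⟨C', d', u, hs, hu⟩
    apply hc
    refine ⟨C', d', u, hs, fun γ hγ => hu γ (Or.inl hγ), fun ζ hζ => ⟨fun h1 => ?_, fun h1 =>
      hu ζ (Or.inr ⟨hζ, h1⟩)⟩⟩
    by_contra h2
    exact (eval_np u ζ).1 (hu (np ζ) (Or.inr ⟨by rw [vars_np]; exact hζ, (eval_np w ζ).2 h2⟩)) h1
  obtain ⟨F, hF, hF'⟩ := not_satis hn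
  let l : List Fml := (F.filter (fun ζ => ζ.vars ⊆ Z ∧ eval w ζ = 1)).toList
  have hl : ∀ ψ, ψ ∈ l ↔ ψ ∈ F ∧ (ψ.vars ⊆ Z ∧ eval w ψ = 1) := by
    intro ψ
    rw [Finset.mem_toList, Finset.mem_filter]
  have hw : eval w (conj l) = 1 := (eval_conj w l).2 fun ψ hψ => ((hl ψ).1 hψ).2.2
  have hL : LS S Γ (np (conj l)) := by
    rw [LS_iff]
    intro C' d' hs u hu
    rw [eval_np]
    intro h1
    obtain ⟨ζ, hζ, hζ'⟩ := hF' C' d' u hs
    rcases hF ζ hζ with h3 | h3
    · exact hζ' (hu ζ h3)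
    · exact hζ' ((eval_conj u l).1 h1 ζ ((hl ζ).2 ⟨hζ, h3⟩))
  have hv : (np (conj l)).vars ⊆ Z := by
    rw [vars_np]
    exact vars_conj l Z fun ψ hψ => ((hl ψ).1 hψ).2.1
  exact (eval_np w _).1 (h _ hv hL) hw

theorem LS_dip (S : Set ℕ) : DIP (LS S) := by
  classical
  intro Γ φ hφ
  refine ⟨{π | π.vars ⊆ Vars Γ ∩ φ.vars ∧ LS S Γ π}, ?_, fun π hπ => hπ.2, ?_⟩
  · rintro n ⟨γ, hγ, hn⟩
    exact hγ.1 hn
  by_contra hc
  rw [LS_iff] at hc
  push Not at hc
  obtain ⟨C, d, hs, w, hw, hwφ⟩ := hc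
  obtain ⟨C', d', u, hs', huΓ, huw⟩ := satis_over (S := S) (Γ := Γ) w (Vars Γ ∩ φ.vars)
    fun ζ hζ hζ' => hw ζ ⟨hζ, hζ'⟩
  obtain ⟨C₃, d₃, ι₁, ι₂, h3, h4⟩ := El.joint (u := u) (w := w) hs' hs huw
  let t : ℕ → El d₃ := fun n => if n ∈ Vars Γ then El.map ι₁ (u n) else El.map ι₂ (w n)
  have h5 : ∀ γ ∈ Γ, eval t γ = 1 := by
    intro γ hγ
    have : eval t γ = eval (fun n => El.map ι₁ (u n)) γ :=
      eval_congr γ fun n hn => if_pos ⟨γ, hγ, hn⟩
    rw [this, El.eval_map, El.map_eq_one]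
    exact huΓ γ hγ
  have h6 : eval t φ = 1 := (LS_iff S Γ φ).1 hφ C₃ d₃ h3 t h5
  have h7 : eval t φ = eval (fun n => El.map ι₂ (w n)) φ := by
    refine eval_congr φ fun n hn => ?_
    by_cases h : n ∈ Vars Γ
    · exact (if_pos h).trans (h4 n ⟨h, hn⟩)
    · exact if_neg h
  rw [h7, El.eval_map, El.map_eq_one] at h6
  exact hwφ h6

/-! ### Different sets give different logics -/

/-- the standard order with colours given by `S` -/
noncomputable def std (S : Set ℕ) : Dc ℕ where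
  le i j := j ≤ i
  refl _ := le_rfl
  trans _ _ _ h1 h2 := le_trans h2 h1
  anti _ _ h1 h2 := le_antisymm h2 h1
  total i j := le_total j i
  z := 0
  top _ := Nat.zero_le _
  s := Nat.succ
  p := Nat.pred
  s_le i j := by
    show ¬ j ≤ i ↔ i + 1 ≤ j
    omega
  ps _ := rfl
  sp i := by
    cases i with
    | zero => exact Or.inl rfl
    | succ i => exact Or.inr rfl
  pz := rfl
  col i := @decide (i ∈ S) (Classical.propDecidable _)

theorem std_good (S : Set ℕ) : Good S (std S) := by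
  intro n
  have h : ∀ n : ℕ, (std S).s^[n] (std S).z = n := by
    intro n
    induction n with
    | zero => rfl
    | succ n ih => rw [Function.iterate_succ_apply', ih]; rfl
  rw [h]
  exact @decide_eq_true_iff _ (Classical.propDecidable _)

/-- the terms for the standard points -/
def tz : ℕ → Fml
  | 0 => El.fZ (.var 0)
  | n + 1 => El.fS (tz n)

theorem eval_tz {C : Type} {d : Dc C} (u : ℕ → El d) (h0 : u 0 ≠ .k 0) (h1 : u 0 ≠ .k 9)
    (n : ℕ) : eval u (tz n) = .x (d.s^[n] d.z) := by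
  induction n with
  | zero => exact El.eval_fZ u (.var 0) h0 h1
  | succ n ih =>
    rw [Function.iterate_succ_apply']
    exact El.eval_fS u _ _ ih

/-- the formula saying that the colour of the point `n` is true -/
def ψ (n : ℕ) : Fml := ((Fml.var 0).or (Fml.var 0).neg).or (El.fC (tz n))

theorem ψ_iff (S : Set ℕ) (n : ℕ) : IsTh S (ψ n) ↔ n ∈ S := by
  have top1 : ∀ {C : Type} {d : Dc C} (a b : El d), a ⊔ b = 1 ↔ a = 1 ∨ b = 1 := by
    intro C d a b
    constructor
    · intro h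
      rcases le_total a b with h1 | h1
      · right; rwa [sup_eq_right.2 h1] at h
      · left; rwa [sup_eq_left.2 h1] at h
    · rintro (h | h)
      · rw [h]; exact sup_eq_left.2 (le_one' _)
      · rw [h]; exact sup_eq_right.2 (le_one' _)
  constructor
  · intro h
    let u : ℕ → El (std S) := fun _ => .k 8
    have h1 := h ℕ (std S) (std_good S) u
    have h2 : (u 0 ⊔ FLew.imp (u 0) ⊥) ⊔ eval u (El.fC (tz n)) = 1 := h1
    rw [top1, top1] at h2
    have ha : u 0 ≠ .k 0 := fun h => absurd (El.k.inj h) (by decide)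
    have hb : u 0 ≠ .k 9 := fun h => absurd (El.k.inj h) (by decide)
    rcases h2 with (h2 | h2) | h2
    · exact absurd h2 hb
    · rw [show FLew.imp (u 0) ⊥ = (.k 4 : El (std S)) from El.neg_k 8] at h2
      exact absurd (El.k.inj h2) (by decide)
    · rw [El.eval_fC u _ _ (eval_tz u ha hb n)] at h2
      exact (std_good S n).1 h2
  · intro h C d hs u
    show (u 0 ⊔ FLew.imp (u 0) ⊥) ⊔ eval u (El.fC (tz n)) = 1
    rw [top1, top1]
    by_cases ha : u 0 = .k 0
    · left; right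
      rw [ha, El.neg_k]; rfl
    by_cases hb : u 0 = .k 9
    · left; left; exact hb
    right
    rw [El.eval_fC u _ _ (eval_tz u ha hb n)]
    exact (hs n).2 h

theorem LS_inj : Function.Injective LS := by
  intro S S' h
  ext n
  have key : ∀ S : Set ℕ, LS S ∅ (ψ n) ↔ n ∈ S := by
    intro S
    rw [LS_iff, ← ψ_iff]
    exact ⟨fun h C d hs u => h C d hs u fun γ hγ => hγ.elim, fun h C d hs u _ => h C d hs u⟩
  rw [← key S, ← key S', h]

/-- There are uncountably many axiomatic extensions of `MTL` with the deductive interpolation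
property. -/
theorem result : ¬ {L : Set Fml → Fml → Prop | IsAxExt L ∧ DIP L}.Countable := by
  intro h
  have h1 : (Set.range LS).Countable := by
    refine h.mono ?_
    rintro L ⟨X, rfl⟩
    exact ⟨LS_ext _, LS_dip _⟩
  have h2 : Countable (Set ℕ) := by
    have := h1.to_subtype
    exact (Equiv.ofInjective _ LS_inj).countable_iff.2 this
  obtain ⟨F, hF⟩ := h2.exists_injective_nat
  exact Function.cantor_injective F hF

end Pool.Agent.Results.MP_6be952_lc.UncountablyManyDIP
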